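import Pool.Agent.H426R3.SQ.Defs
import Pool.Agent.Helper256.KM.Mertens

set_option autoImplicit false
set_option maxHeartbeats 4000000

/-! # Mertens sums over the primes outside a small set -/

namespace Pool.Agent.H912R3.LF

open Finset Pool.Agent.H256R2.SC Pool.Agent.H426R3.SQ

theorem sum_union_le (s t : Finset ℕ) (f : ℕ → ℝ) (hf : ∀ p ∈ s ∪ t, 0 ≤ f p) :
    ∑ p ∈ s ∪ t, f p ≤ ∑ p ∈ s, f p + ∑ p ∈ t, f p := by
  classical
  rw [← sum_union_inter]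
  have : 0 ≤ ∑ p ∈ s ∩ t, f p := sum_nonneg fun p hp => hf p (mem_union_left _ (mem_inter.1 hp).1)
  linarith

/-- Mertens (adapted from `mertens_SP` of helper268) -/
theorem mertens_two : ∃ C : ℝ, 0 ≤ C ∧ ∀ y w : ℝ, 4 ≤ y → y ≤ w →
    Real.log (Real.log w) - Real.log (Real.log y) - C ≤ ∑ p ∈ SP y w ∅, (1 : ℝ) / p ∧
    ∑ p ∈ SP y w ∅, (1 : ℝ) / p ≤ Real.log (Real.log w) - Real.log (Real.log y) + C := by
  obtain ⟨C, hC⟩ := Pool.Agent.Helper256.KM.mertens_inv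
  have hC0 : 0 ≤ C := (abs_nonneg _).trans (hC 3 le_rfl)
  refine ⟨2 * C + 1, by linarith, fun y w hy hyw => ?_⟩
  have hy0 : (0:ℝ) ≤ y := by linarith
  have hw0 : (0:ℝ) ≤ w := by linarith
  have hfy : 4 ≤ ⌊y⌋₊ := Nat.le_floor (by exact_mod_cast hy)
  have hfw : 4 ≤ ⌊w⌋₊ := Nat.le_floor (by exact_mod_cast hy.trans hyw)
  have h1 := (abs_le.mp (hC ⌊y⌋₊ (by omega))).2
  have h2 := (abs_le.mp (hC ⌊w⌋₊ (by omega))).1
  have h1' := (abs_le.mp (hC ⌊y⌋₊ (by omega))).1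
  have h2' := (abs_le.mp (hC ⌊w⌋₊ (by omega))).2
  -- the sum over SP
  have hsplit : ∑ p ∈ (Finset.Icc 1 ⌊w⌋₊).filter Nat.Prime, (1 : ℝ) / p =
      ∑ p ∈ (Finset.Icc 1 ⌊y⌋₊).filter Nat.Prime, (1 : ℝ) / p + ∑ p ∈ SP y w ∅, (1 : ℝ) / p := by
    rw [← Finset.sum_union]
    · refine Finset.sum_congr ?_ fun _ _ => rfl
      ext p
      simp only [SP, mem_union, mem_filter, mem_Icc, notMem_empty, not_false_eq_true, and_true]
      constructor
      · rintro ⟨⟨h3, h4⟩, h5⟩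
        by_cases h6 : p ≤ ⌊y⌋₊
        · exact Or.inl ⟨⟨h3, h6⟩, h5⟩
        · refine Or.inr ⟨⟨h3, h4⟩, h5, ?_⟩
          exact (Nat.floor_lt hy0).mp (by omega)
      · rintro (⟨⟨h3, h4⟩, h5⟩ | ⟨⟨h3, h4⟩, h5, _⟩)
        · exact ⟨⟨h3, h4.trans (Nat.floor_le_floor hyw)⟩, h5⟩
        · exact ⟨⟨h3, h4⟩, h5⟩
    · rw [Finset.disjoint_left]
      intro p hp hp'
      simp only [SP, mem_filter, mem_Icc] at hp hp'
      have := (Nat.le_floor_iff hy0).mp hp.1.2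
      linarith [hp'.2.2.1]
  -- log log at the floors
  have hle : ∀ v : ℝ, 4 ≤ v → Real.log (Real.log ⌊v⌋₊) ≤ Real.log (Real.log v) := by
    intro v hv
    have hfv : 4 ≤ ⌊v⌋₊ := Nat.le_floor (by exact_mod_cast hv)
    have hf : (⌊v⌋₊ : ℝ) ≤ v := Nat.floor_le (by linarith)
    have hf4 : (4:ℝ) ≤ ⌊v⌋₊ := by exact_mod_cast hfv
    have : 0 < Real.log ⌊v⌋₊ := Real.log_pos (by linarith)
    exact Real.log_le_log this (Real.log_le_log (by linarith) hf)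
  have hge : ∀ v : ℝ, 4 ≤ v → Real.log (Real.log v) ≤ Real.log (Real.log ⌊v⌋₊) + 1 := by
    intro v hv
    have hfv : 4 ≤ ⌊v⌋₊ := Nat.le_floor (by exact_mod_cast hv)
    have hf : v < ⌊v⌋₊ + 1 := Nat.lt_floor_add_one v
    have hf4 : (4:ℝ) ≤ ⌊v⌋₊ := by exact_mod_cast hfv
    have hfp : (0:ℝ) < ⌊v⌋₊ := by linarith
    have hlog : 1 ≤ Real.log ⌊v⌋₊ := by
      rw [Real.le_log_iff_exp_le hfp]
      have := Real.exp_one_lt_d9
      linarith
    have h3 : Real.log v ≤ Real.log ⌊v⌋₊ * Real.exp 1 := by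
      have h4 : Real.log v ≤ Real.log (⌊v⌋₊ * 2) :=
        Real.log_le_log (by linarith) (by linarith)
      rw [Real.log_mul hfp.ne' (by norm_num)] at h4
      have h5 : Real.log 2 ≤ 1 := by
        have := Real.log_two_lt_d9
        linarith
      have h6 : 2 ≤ Real.exp 1 := by
        have := Real.exp_one_gt_d9
        linarith
      nlinarith
    calc Real.log (Real.log v) ≤ Real.log (Real.log ⌊v⌋₊ * Real.exp 1) := by
          refine Real.log_le_log (Real.log_pos (by linarith)) h3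
      _ = Real.log (Real.log ⌊v⌋₊) + 1 := by
          rw [Real.log_mul (by linarith) (Real.exp_pos 1).ne', Real.log_exp]
  have g1 := hle y hy
  have g2 := hge y hy
  have g3 := hle w (hy.trans hyw)
  have g4 := hge w (hy.trans hyw)
  constructor <;> linarith

/-- a set of at most `L ^ (A + 3)` primes is negligible among the primes `> L ^ 3` -/
theorem mertens_B (A : ℕ) : ∃ C : ℝ, 0 ≤ C ∧ ∃ L₀ : ℝ, ∀ L : ℝ, L₀ ≤ L → ∀ B : Finset ℕ,
    (B.card : ℝ) ≤ L ^ (A + 3) → ∀ w : ℝ, L ^ 3 ≤ w →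
      Real.log (Real.log w) - Real.log (Real.log (L ^ 3)) - C ≤ ∑ p ∈ SP (L ^ 3) w B, (1 : ℝ) / p := by
  classical
  obtain ⟨C, hC0, hC⟩ := mertens_two
  refine ⟨2 * C + 1 + Real.log ((A + 3 : ℝ) / 3), by
    have : 0 ≤ Real.log ((A + 3 : ℝ) / 3) := Real.log_nonneg (by
      rw [le_div_iff₀ (by norm_num)]
      have : (0 : ℝ) ≤ A := Nat.cast_nonneg A
      linarith)
    linarith, 4, fun L hL B hB w hw => ?_⟩
  have hL0 : (0 : ℝ) < L := by linarith
  have hL1 : (1 : ℝ) ≤ L := by linarith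
  have hlL : 0 < Real.log L := Real.log_pos (by linarith)
  have h43 : (4 : ℝ) ≤ L ^ 3 := by
    calc (4 : ℝ) ≤ L := hL
      _ = L ^ 1 := (pow_one L).symm
      _ ≤ L ^ 3 := pow_le_pow_right₀ hL1 (by norm_num)
  have hA3 : L ^ 3 ≤ L ^ (A + 3) := pow_le_pow_right₀ hL1 (by omega)
  have h1 := (hC (L ^ 3) w h43 hw).1
  have h2 := (hC (L ^ 3) (L ^ (A + 3)) h43 hA3).2
  have h3 : Real.log (Real.log (L ^ (A + 3))) - Real.log (Real.log (L ^ 3)) =
      Real.log ((A + 3 : ℝ) / 3) := by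
    rw [Real.log_pow, Real.log_pow, ← Real.log_div (by positivity) (by positivity)]
    congr 1
    push_cast
    field_simp
  rw [h3] at h2
  have hsplit : SP (L ^ 3) w ∅ ⊆ SP (L ^ 3) w B ∪ (SP (L ^ 3) (L ^ (A + 3)) ∅ ∪
      (B.filter (fun p : ℕ => L ^ (A + 3) < (p : ℝ)))) := by
    intro p hp
    simp only [SP, mem_union, mem_filter, mem_Icc, notMem_empty, not_false_eq_true, and_true] at hp ⊢
    by_cases hpB : p ∈ B
    · right
      by_cases hpL : (p : ℝ) ≤ L ^ (A + 3)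
      · left
        exact ⟨⟨hp.1.1, Nat.le_floor hpL⟩, hp.2.1, hp.2.2⟩
      · right
        exact ⟨hpB, not_le.1 hpL⟩
    · left
      exact ⟨hp.1, hp.2.1, hp.2.2, hpB⟩
  have hnn : ∀ s : Finset ℕ, ∀ p ∈ s, (0 : ℝ) ≤ 1 / (p : ℝ) := fun s p _ => by positivity
  have h4 : ∑ p ∈ SP (L ^ 3) w ∅, (1 : ℝ) / p ≤ ∑ p ∈ SP (L ^ 3) w B, (1 : ℝ) / p +
      (∑ p ∈ SP (L ^ 3) (L ^ (A + 3)) ∅, (1 : ℝ) / p +
        ∑ p ∈ B.filter (fun p : ℕ => L ^ (A + 3) < (p : ℝ)), (1 : ℝ) / p) := by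
    refine (Finset.sum_le_sum_of_subset_of_nonneg hsplit (fun p _ _ => by positivity)).trans ?_
    refine (sum_union_le _ _ _ (hnn _)).trans ?_
    exact add_le_add le_rfl (sum_union_le _ _ _ (hnn _))
  have h5 : ∑ p ∈ B.filter (fun p : ℕ => L ^ (A + 3) < (p : ℝ)), (1 : ℝ) / p ≤ 1 := by
    calc _ ≤ ∑ p ∈ B.filter (fun p : ℕ => L ^ (A + 3) < (p : ℝ)), 1 / L ^ (A + 3) := by
          apply sum_le_sum
          intro p hp
          exact one_div_le_one_div_of_le (by positivity) (mem_filter.1 hp).2.le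
      _ = ((B.filter (fun p : ℕ => L ^ (A + 3) < (p : ℝ))).card : ℝ) * (1 / L ^ (A + 3)) := by
          rw [sum_const, nsmul_eq_mul]
      _ ≤ L ^ (A + 3) * (1 / L ^ (A + 3)) := by
          apply mul_le_mul_of_nonneg_right _ (by positivity)
          refine le_trans ?_ hB
          exact_mod_cast card_filter_le _ _
      _ = 1 := by field_simp
  linarith

end Pool.Agent.H912R3.LF
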