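import Mathlib
import Pool.Agent.H256R2.SC.G1
import Pool.Agent.H256R2.SC.G3

set_option autoImplicit false
set_option maxHeartbeats 4000000

/-! # Auxiliary facts for linear forms -/

namespace Pool.Agent.H912R3.LF

open Finset Pool.Agent.H256R2.SC Pool.Agent.H256R2.SC.G3

open scoped Classical

theorem prod_dvd_iff (T : Finset ℕ) (hT : ∀ p ∈ T, p.Prime) (n : ℤ) :
    ((∏ p ∈ T, p : ℕ) : ℤ) ∣ n ↔ ∀ p ∈ T, (p : ℤ) ∣ n := by
  constructor
  · intro h p hp
    exact (Int.natCast_dvd_natCast.2 (Finset.dvd_prod_of_mem _ hp)).trans h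
  · intro h
    rw [Int.natCast_dvd]
    apply Finset.prod_primes_dvd
    · intro p hp
      exact (hT p hp).prime
    · intro p hp
      exact Int.natCast_dvd.1 (h p hp)

/-- the conditions modulo the primes of `T` amount to one residue class -/
theorem crt_forms (T : Finset ℕ) (hT : ∀ p ∈ T, p.Prime) (P : ℕ) (b0 : ℤ)
    (hP : ∀ p ∈ T, ¬ p ∣ P) (s : ℕ → ℕ × ℤ) (hs : ∀ p ∈ T, ¬ p ∣ (s p).1) :
    ∃ v : ℤ, ∀ m : ℤ, (∀ p ∈ T, (p : ℤ) ∣ ((s p).1 : ℤ) * (b0 + P * m) + (s p).2) ↔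
      ((∏ p ∈ T, p : ℕ) : ℤ) ∣ m - v := by
  have hr : ∀ p ∈ T, ∃ r : ℤ, (p : ℤ) ∣ ((s p).1 : ℤ) * (b0 + P * r) + (s p).2 := by
    intro p hp
    have hpp := hT p hp
    obtain ⟨i, hi⟩ := Pool.Agent.H256R2.SC.LG.inv_exists hpp (hP p hp)
    obtain ⟨j, hj⟩ := Pool.Agent.H256R2.SC.LG.inv_exists hpp (hs p hp)
    refine ⟨i * (-(s p).2 * j - b0), ?_⟩
    have e : ((s p).1 : ℤ) * (b0 + P * (i * (-(s p).2 * j - b0))) + (s p).2 =
        (P * i - 1) * (((s p).1 : ℤ) * (-(s p).2 * j - b0)) -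
          (((s p).1 : ℤ) * j - 1) * (s p).2 := by ring
    rw [e]
    exact dvd_sub (hi.mul_right _) (hj.mul_right _)
  choose! r hr using hr
  obtain ⟨v, _, hv⟩ := crt_small T hT (fun p => ((-r p) % (p : ℤ)).toNat)
  refine ⟨v, fun m => ?_⟩
  rw [prod_dvd_iff T hT]
  refine forall₂_congr fun p hp => ?_
  have hpp := hT p hp
  have hpi : Prime (p : ℤ) := Nat.prime_iff_prime_int.1 hpp
  have hp0 : (0 : ℤ) < p := by exact_mod_cast hpp.pos
  have h1 : (p : ℤ) ∣ (v : ℤ) - r p := by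
    have h2 : (p : ℤ) ∣ ((v + ((-r p) % (p : ℤ)).toNat : ℕ) : ℤ) := by exact_mod_cast hv p hp
    push_cast at h2
    rw [Int.toNat_of_nonneg (Int.emod_nonneg _ hp0.ne')] at h2
    have h3 : (p : ℤ) ∣ (-r p) % (p : ℤ) - (-r p) :=
      (Int.modEq_iff_dvd.1 (Int.mod_modEq (-r p) p).symm)
    have h4 := dvd_sub h2 h3
    have e : (v : ℤ) + (-r p) % (p : ℤ) - ((-r p) % (p : ℤ) - (-r p)) = (v : ℤ) - r p := by ring
    rwa [e] at h4
  have h5 : (p : ℤ) ∣ ((s p).1 : ℤ) * (b0 + P * m) + (s p).2 ↔ (p : ℤ) ∣ m - r p := by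
    have e : ((s p).1 : ℤ) * (b0 + P * m) + (s p).2 =
        (((s p).1 : ℤ) * (b0 + P * r p) + (s p).2) + ((s p).1 : ℤ) * P * (m - r p) := by ring
    rw [e, dvd_add_right (hr p hp)]
    constructor
    · intro h
      rcases hpi.dvd_or_dvd h with h6 | h6
      · exfalso
        rcases hpi.dvd_or_dvd h6 with h7 | h7
        · exact hs p hp (by exact_mod_cast h7)
        · exact hP p hp (by exact_mod_cast h7)
      · exact h6
    · intro h
      exact h.mul_left _
  rw [h5]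
  have e1 : m - r p = (m - v) + (v - r p) := by ring
  rw [e1]
  exact dvd_add_left h1

/-- two different coprime pairs have non vanishing determinant -/
theorem det_ne {x y : ℕ × ℤ} (hx : 1 ≤ x.1) (hy : 1 ≤ y.1) (cx : Int.gcd x.1 x.2 = 1)
    (cy : Int.gcd y.1 y.2 = 1) (hxy : x ≠ y) : (x.1 : ℤ) * y.2 - y.1 * x.2 ≠ 0 := by
  intro h
  apply hxy
  have h1 : (x.1 : ℤ) * y.2 = y.1 * x.2 := by linarith
  have c1 : IsCoprime (x.1 : ℤ) x.2 := Int.isCoprime_iff_gcd_eq_one.2 cx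
  have c2 : IsCoprime (y.1 : ℤ) y.2 := Int.isCoprime_iff_gcd_eq_one.2 cy
  have d1 : (x.1 : ℤ) ∣ y.1 := by
    have : (x.1 : ℤ) ∣ y.1 * x.2 := ⟨y.2, h1.symm⟩
    exact c1.dvd_of_dvd_mul_right this
  have d2 : (y.1 : ℤ) ∣ x.1 := by
    have : (y.1 : ℤ) ∣ x.1 * y.2 := ⟨x.2, h1⟩
    exact c2.dvd_of_dvd_mul_right this
  have e : x.1 = y.1 := Nat.dvd_antisymm (by exact_mod_cast d1) (by exact_mod_cast d2)
  have e2 : y.2 = x.2 := by
    rw [e] at h1
    have hy0 : (y.1 : ℤ) ≠ 0 := by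
      have : y.1 ≠ 0 := by omega
      exact_mod_cast this
    exact mul_left_cancel₀ hy0 h1
  exact Prod.ext e e2.symm

/-- the exceptional primes -/
theorem bad_set (A : ℕ) (L : ℝ) (hL : 8 ≤ L) (U : Finset (ℕ × ℤ)) (hU : (U.card : ℝ) ≤ L)
    (h : ∀ x ∈ U, 1 ≤ x.1 ∧ (x.1 : ℝ) ≤ Real.exp (L ^ A) ∧
      |(x.2 : ℝ)| ≤ Real.exp (L ^ A) ∧ Int.gcd x.1 x.2 = 1) :
    ∃ B : Finset ℕ, (B.card : ℝ) ≤ L ^ (A + 3) ∧
      (∀ x ∈ U, ∀ p : ℕ, p.Prime → p ∣ x.1 → p ∈ B) ∧
      (∀ x ∈ U, ∀ y ∈ U, x ≠ y → ∀ p : ℕ, p.Prime → (p : ℤ) ∣ (x.1 : ℤ) * y.2 - y.1 * x.2 →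
        p ∈ B) := by
  have hL0 : (0 : ℝ) ≤ L := by linarith
  have hLA : 1 ≤ L ^ A := one_le_pow₀ (by linarith)
  set B1 := U.biUnion (fun x => x.1.primeFactors) with hB1
  set B2 := (U ×ˢ U).biUnion (fun z => ((z.1.1 : ℤ) * z.2.2 - z.2.1 * z.1.2).natAbs.primeFactors)
    with hB2
  refine ⟨B1 ∪ B2, ?_, ?_, ?_⟩
  · have c1 : (B1.card : ℝ) ≤ L * (2 * L ^ A) := by
      have h1 : (B1.card : ℝ) ≤ ∑ x ∈ U, (x.1.primeFactors.card : ℝ) := by
        exact_mod_cast card_biUnion_le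
      refine h1.trans ?_
      calc ∑ x ∈ U, (x.1.primeFactors.card : ℝ) ≤ ∑ x ∈ U, (2 * L ^ A) := by
            apply sum_le_sum
            intro x hx
            obtain ⟨h2, h3, -, -⟩ := h x hx
            refine (card_primeFactors_le x.1 (by omega)).trans ?_
            have h4 : Real.log x.1 ≤ L ^ A := by
              rw [← Real.log_exp (L ^ A)]
              exact Real.log_le_log (by exact_mod_cast h2) h3
            linarith
        _ = (U.card : ℝ) * (2 * L ^ A) := by rw [sum_const, nsmul_eq_mul]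
        _ ≤ L * (2 * L ^ A) := by gcongr
    have c2 : (B2.card : ℝ) ≤ L ^ 2 * (6 * L ^ A) := by
      have h1 : (B2.card : ℝ) ≤ ∑ z ∈ U ×ˢ U,
          ((((z.1.1 : ℤ) * z.2.2 - z.2.1 * z.1.2).natAbs.primeFactors).card : ℝ) := by
        exact_mod_cast card_biUnion_le
      refine h1.trans ?_
      calc ∑ z ∈ U ×ˢ U,
          ((((z.1.1 : ℤ) * z.2.2 - z.2.1 * z.1.2).natAbs.primeFactors).card : ℝ) ≤
            ∑ z ∈ U ×ˢ U, (6 * L ^ A) := by
            apply sum_le_sum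
            intro z hz
            rw [mem_product] at hz
            obtain ⟨h2, h3, h4, -⟩ := h z.1 hz.1
            obtain ⟨g2, g3, g4, -⟩ := h z.2 hz.2
            by_cases h0 : ((z.1.1 : ℤ) * z.2.2 - z.2.1 * z.1.2).natAbs = 0
            · rw [h0]
              simp
              linarith
            refine (card_primeFactors_le _ h0).trans ?_
            have h5 : ((((z.1.1 : ℤ) * z.2.2 - z.2.1 * z.1.2).natAbs : ℕ) : ℝ) ≤
                Real.exp (3 * L ^ A) := by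
              have e1 : ((((z.1.1 : ℤ) * z.2.2 - z.2.1 * z.1.2).natAbs : ℕ) : ℝ) =
                  |(z.1.1 : ℝ) * z.2.2 - z.2.1 * z.1.2| := by
                rw [Nat.cast_natAbs]
                push_cast
                rfl
              rw [e1]
              have a1 : |(z.1.1 : ℝ) * z.2.2| ≤ Real.exp (L ^ A) * Real.exp (L ^ A) := by
                rw [abs_mul, Nat.abs_cast]
                exact mul_le_mul h3 g4 (abs_nonneg _) (Real.exp_pos _).le
              have a2 : |(z.2.1 : ℝ) * z.1.2| ≤ Real.exp (L ^ A) * Real.exp (L ^ A) := by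
                rw [abs_mul, Nat.abs_cast]
                exact mul_le_mul g3 h4 (abs_nonneg _) (Real.exp_pos _).le
              have a3 := abs_sub ((z.1.1 : ℝ) * z.2.2) ((z.2.1 : ℝ) * z.1.2)
              have a4 : (2 : ℝ) ≤ Real.exp (L ^ A) := by
                have := Real.add_one_le_exp (L ^ A)
                linarith
              have a5 : 0 < Real.exp (L ^ A) * Real.exp (L ^ A) := by positivity
              calc |(z.1.1 : ℝ) * z.2.2 - z.2.1 * z.1.2| ≤
                    2 * (Real.exp (L ^ A) * Real.exp (L ^ A)) := by linarith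
                _ ≤ Real.exp (L ^ A) * (Real.exp (L ^ A) * Real.exp (L ^ A)) := by gcongr
                _ = Real.exp (3 * L ^ A) := by
                    rw [← Real.exp_add, ← Real.exp_add]
                    congr 1
                    ring
            have h6 : Real.log ((((z.1.1 : ℤ) * z.2.2 - z.2.1 * z.1.2).natAbs : ℕ) : ℝ) ≤
                3 * L ^ A := by
              rw [← Real.log_exp (3 * L ^ A)]
              exact Real.log_le_log (by exact_mod_cast Nat.pos_of_ne_zero h0) h5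
            linarith
        _ = ((U ×ˢ U).card : ℝ) * (6 * L ^ A) := by rw [sum_const, nsmul_eq_mul]
        _ ≤ L ^ 2 * (6 * L ^ A) := by
            rw [card_product]
            push_cast
            have : (U.card : ℝ) * U.card ≤ L ^ 2 := by
              rw [sq]
              exact mul_le_mul hU hU (Nat.cast_nonneg _) hL0
            gcongr
    have c3 : ((B1 ∪ B2).card : ℝ) ≤ B1.card + B2.card := by exact_mod_cast card_union_le _ _
    have c4 : L * (2 * L ^ A) ≤ L ^ 2 * (2 * L ^ A) := by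
      have : L ≤ L ^ 2 := by nlinarith
      gcongr
    have c5 : L ^ (A + 3) = L ^ 2 * (L * L ^ A) := by ring
    rw [c5]
    have c6 : L ^ 2 * (8 * L ^ A) ≤ L ^ 2 * (L * L ^ A) := by gcongr
    calc ((B1 ∪ B2).card : ℝ) ≤ L ^ 2 * (8 * L ^ A) := by linarith
      _ ≤ _ := c6
  · intro x hx p hp hpx
    apply mem_union_left
    rw [hB1, mem_biUnion]
    exact ⟨x, hx, Nat.mem_primeFactors.2 ⟨hp, hpx, by have := (h x hx).1; omega⟩⟩
  · intro x hx y hy hxy p hp hd
    apply mem_union_right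
    rw [hB2, mem_biUnion]
    refine ⟨(x, y), mem_product.2 ⟨hx, hy⟩, Nat.mem_primeFactors.2 ⟨hp, Int.natCast_dvd.1 hd, ?_⟩⟩
    have := det_ne (h x hx).1 (h y hy).1 (h x hx).2.2.2 (h y hy).2.2.2 hxy
    simpa using this

end Pool.Agent.H912R3.LF
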