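import Mathlib
import Pool.Agent.H256R2.SC.G1
import Pool.Agent.H256R2.SC.G3

set_option autoImplicit false
set_option maxHeartbeats 4000000

/-! # Choice of residue classes for linear forms -/

namespace Pool.Agent.H912R3.LF

open Finset Pool.Agent.H256R2.SC Pool.Agent.H256R2.SC.G3

open scoped Classical

/-- Averaging over all classes modulo the primes of `S` (adapted from `H341R2.DG.greedy_abs`). -/
theorem greedy_lin {α : Type*} (hit : ℕ → ℕ → α → Prop) (good : ℕ → α → Prop)
    (hg : ∀ p x, good p x → ∃ c, c < p ∧ hit p c x) (S : Finset ℕ)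
    (hS : ∀ p ∈ S, 2 ≤ p) :
    ∀ R : Finset α, ∃ b : ℕ → ℕ, (∀ p ∈ S, b p < p) ∧
      ((R.filter (fun x => ∀ p ∈ S, ¬ hit p (b p) x)).card : ℝ) ≤
        ∑ x ∈ R, ∏ p ∈ S.filter (fun p => good p x), (1 - 1 / (p : ℝ)) := by
  induction S using Finset.induction_on with
  | empty => intro R; exact ⟨fun _ => 0, by simp, by simp⟩
  | insert p S hpS ih =>
    intro R
    have ihP := ih (fun q hq => hS q (mem_insert_of_mem hq))
    have hp3 : 2 ≤ p := hS p (mem_insert_self _ _)
    have hp3' : (2 : ℝ) ≤ p := by exact_mod_cast hp3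
    set w : α → ℝ := fun x => ∏ q ∈ S.filter (fun q => good q x), (1 - 1 / (q : ℝ)) with hw
    have hw0 : ∀ x, 0 ≤ w x := by
      intro x
      apply prod_nonneg
      intro q hq
      have h2 : (2 : ℝ) ≤ q := by exact_mod_cast hS q (mem_insert_of_mem (mem_filter.1 hq).1)
      have h3 : 1 / (q : ℝ) ≤ 1 := by
        rw [div_le_one (by linarith)]; linarith
      linarith
    have hcard : ((range p).card : ℝ) = (p : ℝ) := by
      rw [card_range]
    have havg : ∃ c ∈ range p, ∑ x ∈ R.filter (fun x => ¬ hit p c x), w x ≤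
        ∑ x ∈ R, ∏ q ∈ (insert p S).filter (fun q => good q x), (1 - 1 / (q : ℝ)) := by
      by_contra hcon
      push Not at hcon
      have hne : (range p).Nonempty := ⟨0, mem_range.2 (by omega)⟩
      have h1 := sum_lt_sum_of_nonempty hne hcon
      rw [sum_const, nsmul_eq_mul, hcard] at h1
      have h2 : ∑ c ∈ range p, ∑ x ∈ R.filter (fun x => ¬ hit p c x), w x =
          ∑ x ∈ R, w x * (((range p).filter (fun c => ¬ hit p c x)).card : ℝ) := by
        simp_rw [sum_filter]
        rw [sum_comm]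
        refine sum_congr rfl fun x _ => ?_
        rw [← sum_filter, sum_const, nsmul_eq_mul, mul_comm]
      rw [h2] at h1
      have h3 : ∀ x ∈ R, w x * (((range p).filter (fun c => ¬ hit p c x)).card : ℝ) ≤
          (p : ℝ) *
            ∏ q ∈ (insert p S).filter (fun q => good q x), (1 - 1 / (q : ℝ)) := by
        intro x _
        rw [filter_insert]
        by_cases hgx : good p x
        · rw [if_pos hgx, prod_insert (by simp [hpS])]
          obtain ⟨c, hc2, hc3⟩ := hg p x hgx
          have h4 : (range p).filter (fun c => ¬ hit p c x) ⊆ (range p).erase c := by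
            intro d hd
            rw [mem_filter] at hd
            rw [mem_erase]
            exact ⟨fun h => hd.2 (h ▸ hc3), hd.1⟩
          have h5 := card_le_card h4
          rw [card_erase_of_mem (mem_range.2 hc2), card_range] at h5
          have h6 : ((((range p).filter (fun c => ¬ hit p c x)).card : ℕ) : ℝ) ≤
              (p : ℝ) - 1 := by
            have h8 : ((((range p).filter (fun c => ¬ hit p c x)).card : ℕ) : ℝ) ≤
              ((p - 1 : ℕ) : ℝ) := by exact_mod_cast h5
            rwa [Nat.cast_sub (by omega), Nat.cast_one] at h8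
          have h7 : (p : ℝ) * ((1 - 1 / (p : ℝ)) * w x) = w x * ((p : ℝ) - 1) := by
            have : (p : ℝ) ≠ 0 := by linarith
            field_simp
          change _ ≤ (p : ℝ) * ((1 - 1 / (p : ℝ)) * w x)
          rw [h7]
          exact mul_le_mul_of_nonneg_left h6 (hw0 x)
        · rw [if_neg hgx]
          change _ ≤ (p : ℝ) * w x
          rw [mul_comm]
          refine mul_le_mul_of_nonneg_right ?_ (hw0 x)
          rw [← hcard]
          exact_mod_cast card_filter_le _ _
      have h4 := sum_le_sum h3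
      rw [← mul_sum] at h4
      linarith
    obtain ⟨c, hc, hle⟩ := havg
    rw [mem_range] at hc
    obtain ⟨b, hb, hbc⟩ := ihP (R.filter (fun x => ¬ hit p c x))
    refine ⟨Function.update b p c, ?_, ?_⟩
    · intro q hq
      rcases mem_insert.1 hq with rfl | hq
      · rw [Function.update_self]; exact hc
      · have : q ≠ p := fun h => hpS (h ▸ hq)
        rw [Function.update_of_ne this]
        exact hb q hq
    · have h8 : R.filter (fun x => ∀ q ∈ insert p S, ¬ hit q (Function.update b p c q) x) ⊆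
          (R.filter (fun x => ¬ hit p c x)).filter (fun x => ∀ q ∈ S, ¬ hit q (b q) x) := by
        intro x hx
        rw [mem_filter] at hx
        rw [mem_filter, mem_filter]
        refine ⟨⟨hx.1, ?_⟩, ?_⟩
        · have := hx.2 p (mem_insert_self _ _)
          rwa [Function.update_self] at this
        · intro q hq
          have h9 : q ≠ p := fun h => hpS (h ▸ hq)
          have := hx.2 q (mem_insert_of_mem hq)
          rwa [Function.update_of_ne h9] at this
      calc _ ≤ (((R.filter (fun x => ¬ hit p c x)).filter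
              (fun x => ∀ q ∈ S, ¬ hit q (b q) x)).card : ℝ) := by
            exact_mod_cast card_le_card h8
        _ ≤ _ := hbc
        _ ≤ _ := hle

/-- inverses modulo a prime -/
theorem inv_ex {p a : ℕ} (hp : p.Prime) (h : ¬ p ∣ a) : ∃ i : ℤ, (p : ℤ) ∣ a * i - 1 :=
  Pool.Agent.H256R2.SC.LG.inv_exists hp h

/-- the survivors of a good choice of classes modulo the primes up to `N` -/
theorem survivors_lin : ∃ C : ℝ, 0 < C ∧ ∀ N : ℕ, 3 ≤ N → ∀ F : Finset (ℕ × ℤ),
    (∀ x ∈ F, 1 ≤ x.1) →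
    ∃ b : ℕ → ℕ, (∀ p ∈ (Icc 1 N).filter Nat.Prime, b p < p) ∧
      ((F.filter (fun x => ∀ p ∈ (Icc 1 N).filter Nat.Prime,
        ¬ (p : ℤ) ∣ (x.1 : ℤ) * b p + x.2)).card : ℝ) ≤
        C / Real.log N * ∑ x ∈ F, (x.1 : ℝ) / Nat.totient x.1 := by
  obtain ⟨C, hC0, hC⟩ := mertens_prod
  refine ⟨Real.exp C, Real.exp_pos _, fun N hN F hF => ?_⟩
  obtain ⟨b, hb1, hb2⟩ := greedy_lin (fun p c (x : ℕ × ℤ) => (p : ℤ) ∣ (x.1 : ℤ) * c + x.2)
    (fun p x => p.Prime ∧ ¬ p ∣ x.1) (by
      rintro p x ⟨hp, hpx⟩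
      obtain ⟨i, hi⟩ := inv_ex hp hpx
      have hp0 : (0 : ℤ) < p := by exact_mod_cast hp.pos
      refine ⟨((-x.2 * i) % (p : ℤ)).toNat, ?_, ?_⟩
      · have h1 := Int.emod_lt_of_pos (-x.2 * i) hp0
        have h2 := Int.emod_nonneg (-x.2 * i) hp0.ne'
        omega
      · rw [Int.toNat_of_nonneg (Int.emod_nonneg _ hp0.ne')]
        have h1 : (p : ℤ) ∣ (-x.2 * i) % (p : ℤ) - (-x.2 * i) :=
          (Int.modEq_iff_dvd.1 (Int.mod_modEq (-x.2 * i) p).symm)
        have h2 := h1.mul_left (x.1 : ℤ)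
        have h3 := hi.mul_left (-x.2)
        have h4 := dvd_add h2 h3
        have e : (x.1 : ℤ) * ((-x.2 * i) % (p : ℤ) - (-x.2 * i)) + -x.2 * ((x.1 : ℤ) * i - 1) =
            (x.1 : ℤ) * ((-x.2 * i) % (p : ℤ)) + x.2 := by ring
        rwa [e] at h4)
    ((Icc 1 N).filter Nat.Prime) (fun p hp => (mem_filter.1 hp).2.two_le) F
  refine ⟨b, hb1, ?_⟩
  refine le_trans (b := ∑ x ∈ F, ∏ p ∈ ((Icc 1 N).filter Nat.Prime).filter
    (fun p => p.Prime ∧ ¬ p ∣ x.1), (1 - 1 / (p : ℝ)))
    (le_trans (le_of_eq (by congr!)) (le_trans hb2 (le_of_eq (by congr!)))) ?_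
  rw [mul_sum]
  apply sum_le_sum
  intro x hx
  have hx1 := hF x hx
  have hlN : 0 < Real.log N := Real.log_pos (by exact_mod_cast (by omega : 1 < N))
  have h1 := hC N hN x.1.primeFactors (fun p hp => Nat.prime_of_mem_primeFactors hp)
  have h2 : ((Icc 1 N).filter Nat.Prime).filter (fun p => p.Prime ∧ ¬ p ∣ x.1) =
      ((Icc 1 N).filter Nat.Prime) \ x.1.primeFactors := by
    ext p
    simp only [mem_filter, mem_sdiff, Nat.mem_primeFactors, not_and]
    constructor
    · rintro ⟨⟨h3, h4⟩, _, h5⟩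
      exact ⟨⟨h3, h4⟩, fun _ h6 => absurd h6 h5⟩
    · rintro ⟨⟨h3, h4⟩, h5⟩
      refine ⟨⟨h3, h4⟩, h4, fun h6 => ?_⟩
      exact h5 h4 h6 (by omega)
  rw [h2]
  rw [← totient_div x.1 (by omega)] at h1
  have hφ : 0 < (Nat.totient x.1 : ℝ) := by exact_mod_cast Nat.totient_pos.2 (by omega : 0 < x.1)
  have hx0 : (0 : ℝ) < x.1 := by exact_mod_cast hx1
  have h3 : 0 < (Nat.totient x.1 : ℝ) / x.1 := by positivity
  calc _ = (∏ p ∈ ((Icc 1 N).filter Nat.Prime) \ x.1.primeFactors, (1 - 1 / (p : ℝ))) *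
        ((Nat.totient x.1 : ℝ) / x.1) * ((x.1 : ℝ) / Nat.totient x.1) := by
        field_simp
    _ ≤ Real.exp C / Real.log N * ((x.1 : ℝ) / Nat.totient x.1) := by gcongr

end Pool.Agent.H912R3.LF
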