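import Mathlib
import Pool.Agent.H378R2.RM.ApMain
import Pool.Agent.H426R3.SQ.R1
import Pool.Agent.H912R3.LF.Greedy
import Pool.Agent.H912R3.LF.Mert
import Pool.Agent.H912R3.LF.Crt
import Pool.Agent.H912R3.LF.V1

set_option autoImplicit false
set_option maxHeartbeats 4000000

/-! # Many linear forms with a small prime factor at once -/

namespace Pool.Agent.H912R3.LF

open Finset Filter Pool.Agent.H256R2.SC Pool.Agent.H256R2.SC.G3 Pool.Agent.H426R3.SQ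

open scoped Classical

theorem ev_all (K : ℝ) : ∃ L₀ : ℝ, ∀ L : ℝ, L₀ ≤ L → 400 ≤ L ∧ K ≤ L ∧
    L ≤ Real.exp (L ^ (1 / 20 : ℝ)) := by
  have h1 : ∀ᶠ L : ℝ in atTop, 400 ≤ L := eventually_ge_atTop 400
  have h2 : ∀ᶠ L : ℝ in atTop, K ≤ L := eventually_ge_atTop K
  have h3 : ∀ᶠ L : ℝ in atTop, ‖Real.log L‖ ≤ 1 * ‖L ^ (1 / 20 : ℝ)‖ :=
    (isLittleO_log_rpow_atTop (by norm_num : (0 : ℝ) < 1 / 20)).bound one_pos
  obtain ⟨L₀, hL₀⟩ := eventually_atTop.1 ((h1.and h2).and h3)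
  refine ⟨L₀, fun L hL => ?_⟩
  obtain ⟨⟨a1, a2⟩, a3⟩ := hL₀ L hL
  refine ⟨a1, a2, ?_⟩
  have hL0 : 0 < L := by linarith
  rw [one_mul, Real.norm_of_nonneg (Real.log_nonneg (by linarith)),
    Real.norm_of_nonneg (Real.rpow_nonneg hL0.le _)] at a3
  calc L = Real.exp (Real.log L) := (Real.exp_log hL0).symm
    _ ≤ _ := Real.exp_le_exp.2 a3

theorem logfloor {L : ℝ} (hL : 400 ≤ L) : Real.log L / 2 ≤ Real.log (⌊L / 10⌋₊ : ℝ) ∧
    3 ≤ ⌊L / 10⌋₊ := by
  have h1 : L / 10 < ⌊L / 10⌋₊ + 1 := Nat.lt_floor_add_one _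
  have hs : Real.sqrt L * Real.sqrt L = L := Real.mul_self_sqrt (by linarith)
  have hs2 : 20 ≤ Real.sqrt L := by
    have : Real.sqrt (20 ^ 2) = 20 := Real.sqrt_sq (by norm_num)
    rw [← this]
    apply Real.sqrt_le_sqrt
    linarith
  constructor
  · have h2 : Real.sqrt L ≤ (⌊L / 10⌋₊ : ℝ) := by nlinarith
    have h3 : Real.log (Real.sqrt L) = Real.log L / 2 := Real.log_sqrt (by linarith)
    rw [← h3]
    exact Real.log_le_log (by linarith) h2
  · apply Nat.le_floor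
    push_cast
    linarith

/-- The linear forms theorem. -/
theorem linear_forms (A : ℕ) : ∃ c : ℝ, 0 < c ∧ ∃ X₀ : ℝ, ∀ X : ℝ, X₀ ≤ X →
    ∀ F : Finset (ℕ × ℤ),
    (∀ x ∈ F, 1 ≤ x.1 ∧ (x.1 : ℝ) ≤ Real.exp ((Real.log X) ^ A) ∧
      |(x.2 : ℝ)| ≤ Real.exp ((Real.log X) ^ A) ∧ Int.gcd x.1 x.2 = 1) →
    ∑ x ∈ F, (x.1 : ℝ) / Nat.totient x.1 ≤ c * (Real.log X * Real.log (Real.log X)) →
    ∀ z : ℤ, ∃ n : ℤ, z < n ∧ (n : ℝ) ≤ z + X ∧
      ∀ x ∈ F, ∃ p : ℕ, p.Prime ∧ (p : ℝ) ≤ Real.exp ((Real.log X) ^ (1 / 20 : ℝ)) ∧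
        (p : ℤ) ∣ (x.1 : ℤ) * n + x.2 := by
  obtain ⟨C, hC0, hsurv⟩ := survivors_lin
  obtain ⟨CM, hCM0, L₁, hmert⟩ := mertens_B A
  obtain ⟨c₂, hc₂, y₀, hy₀, hrough⟩ := rough_lower_B CM
  obtain ⟨c₃, hc₃, X₁, hcov⟩ := covering_hit (c₂ / 3) (by positivity)
  set c₄ : ℝ := min c₃ 1 with hc₄
  have hc₄0 : 0 < c₄ := lt_min hc₃ one_pos
  obtain ⟨L₀, hL₀⟩ := ev_all (max L₁ y₀)
  refine ⟨c₄ / (2 * C), by positivity, max X₁ (Real.exp L₀), fun X hX F hF hsum z => ?_⟩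
  have hX1 : X₁ ≤ X := (le_max_left _ _).trans hX
  have hX2 : Real.exp L₀ ≤ X := (le_max_right _ _).trans hX
  have hX0 : 0 < X := (Real.exp_pos _).trans_le hX2
  have hLL : L₀ ≤ Real.log X := by rw [Real.le_log_iff_exp_le hX0]; exact hX2
  obtain ⟨e400, eK, eexp⟩ := hL₀ _ hLL
  set L := Real.log X with hL
  have hL1 : L₁ ≤ L := (le_max_left _ _).trans eK
  have hLy : y₀ ≤ L := (le_max_right _ _).trans eK
  have hLpos : 0 < L := by linarith
  set l := Real.log L with hl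
  have hl0 : 0 < l := Real.log_pos (by linarith)
  set N := ⌊L / 10⌋₊ with hN
  obtain ⟨hlN, hN3⟩ := logfloor e400
  obtain ⟨b, hb1, hb2⟩ := hsurv N hN3 F (fun x hx => (hF x hx).1)
  set S := (Icc 1 N).filter Nat.Prime with hS
  have hSp : ∀ p ∈ S, p.Prime := fun p hp => (mem_filter.1 hp).2
  have hSN : ∀ p ∈ S, p ≤ N := fun p hp => (mem_Icc.1 (mem_filter.1 hp).1).2
  have hNL : (N : ℝ) ≤ L / 10 := Nat.floor_le (by positivity)
  set U := F.filter (fun x => ∀ p ∈ S, ¬ (p : ℤ) ∣ (x.1 : ℤ) * b p + x.2) with hU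
  have hUF : ∀ x ∈ U, x ∈ F := fun x hx => (mem_filter.1 hx).1
  have hUc : (U.card : ℝ) ≤ c₄ * L := by
    refine hb2.trans ?_
    have h1 : 0 < Real.log (N : ℝ) := by linarith
    calc C / Real.log N * ∑ x ∈ F, (x.1 : ℝ) / Nat.totient x.1 ≤
          C / (l / 2) * (c₄ / (2 * C) * (L * l)) := by
          apply mul_le_mul _ hsum (Finset.sum_nonneg fun x _ => by positivity) (by positivity)
          exact div_le_div_of_nonneg_left hC0.le (by positivity) hlN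
      _ = c₄ * L := by field_simp
  have hUc3 : (U.card : ℝ) ≤ c₃ * L := hUc.trans (by
    apply mul_le_mul_of_nonneg_right (min_le_left _ _) hLpos.le)
  have hUc1 : (U.card : ℝ) ≤ L := hUc.trans (by
    have : c₄ ≤ 1 := min_le_right _ _
    nlinarith)
  obtain ⟨B, hB1, hB2, hB3⟩ := bad_set A L (by linarith) U hUc1 (fun x hx => hF x (hUF x hx))
  -- CRT modulo small primes
  set P : ℕ := ∏ p ∈ S, p with hP
  have hPpos : 0 < P := Finset.prod_pos fun p hp => (hSp p hp).pos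
  obtain ⟨b0, -, hb0⟩ := crt_small S hSp (fun p => p - b p)
  have hPprim : P = primorial ⌊L / 10⌋₊ := by
    rw [hP, primorial]
    apply Finset.prod_congr _ (fun _ _ => rfl)
    ext p
    rw [hS, mem_filter, mem_filter, mem_Icc, mem_range]
    constructor
    · rintro ⟨⟨h1, h2⟩, h3⟩
      exact ⟨by omega, h3⟩
    · rintro ⟨h1, h3⟩
      exact ⟨⟨h3.one_lt.le, by omega⟩, h3⟩
  obtain ⟨x1, x2, -, -, -⟩ := Pool.Agent.H378R2.RM.xpow X L (L / 10) hX0 hL e400 (by positivity) le_rfl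
  rw [← hPprim] at x1
  have hPr0 : (0 : ℝ) < P := by exact_mod_cast hPpos
  -- the set of candidates
  set m0 : ℤ := (z - b0) / (P : ℤ) + 1 with hm0
  set Ln : ℕ := ⌊X / P⌋₊ with hLn
  set 𝒜 := Finset.Ico m0 (m0 + Ln) with h𝒜
  have hPz : (0 : ℤ) < P := by exact_mod_cast hPpos
  have hlow : z < b0 + P * m0 := by
    have := Int.lt_ediv_add_one_mul_self (z - b0) hPz
    rw [hm0]
    linarith
  have hupp : (b0 : ℤ) + P * (m0 - 1) ≤ z := by
    have := Int.ediv_mul_le (z - b0) hPz.ne'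
    rw [hm0]
    linarith
  have hLnX : (Ln : ℝ) ≤ X / P := Nat.floor_le (by positivity)
  have hLn4 : X ^ (1 / 2 : ℝ) ≤ Ln := by
    have h1 : X / P < Ln + 1 := Nat.lt_floor_add_one _
    have h2 : X ^ (1 / 2 : ℝ) * X ^ (1 / 2 : ℝ) = X := by
      rw [← Real.rpow_add hX0]; norm_num
    have h3 : 0 < X ^ (1 / 2 : ℝ) := by positivity
    have h4 : 4 * X ^ (1 / 2 : ℝ) ≤ X / P := by
      rw [le_div_iff₀ hPr0]
      calc 4 * X ^ (1 / 2 : ℝ) * P = X ^ (1 / 2 : ℝ) * (4 * P) := by ring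
        _ ≤ X ^ (1 / 2 : ℝ) * X ^ (1 / 2 : ℝ) := by gcongr
        _ = X := h2
    have h5 : (1 : ℝ) ≤ X ^ (1 / 2 : ℝ) := by
      have : (1 : ℝ) ≤ P := by exact_mod_cast hPpos
      linarith
    linarith
  have hrange : ∀ m ∈ 𝒜, z < b0 + P * m ∧ (((b0 + P * m : ℤ) : ℤ) : ℝ) ≤ z + X := by
    intro m hm
    rw [h𝒜, mem_Ico] at hm
    constructor
    · have : (P : ℤ) * m0 ≤ P * m := mul_le_mul_of_nonneg_left hm.1 hPz.le
      linarith
    · have h1 : (P : ℤ) * m ≤ P * (m0 - 1 + Ln) := mul_le_mul_of_nonneg_left (by omega) hPz.le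
      have h2 : (b0 : ℤ) + P * m ≤ z + P * Ln := by linarith [mul_add (P : ℤ) (m0 - 1) Ln]
      have h3 : ((b0 + P * m : ℤ) : ℝ) ≤ ((z + P * Ln : ℤ) : ℝ) := by exact_mod_cast h2
      refine h3.trans ?_
      push_cast
      have h4 : (P : ℝ) * Ln ≤ X := by
        rw [le_div_iff₀ hPr0] at hLnX
        linarith
      linarith
  -- non survivors
  have hnon : ∀ m : ℤ, ∀ x ∈ F, x ∉ U → ∃ p : ℕ, p.Prime ∧
      (p : ℝ) ≤ Real.exp (L ^ (1 / 20 : ℝ)) ∧ (p : ℤ) ∣ (x.1 : ℤ) * (b0 + P * m) + x.2 := by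
    intro m x hx hxU
    rw [hU, mem_filter] at hxU
    push Not at hxU
    obtain ⟨p, hpS, hp⟩ := hxU hx
    refine ⟨p, hSp p hpS, ?_, ?_⟩
    · have h1 : (p : ℝ) ≤ N := by exact_mod_cast hSN p hpS
      linarith
    · have h1 : (p : ℤ) ∣ (b0 : ℤ) - b p := by
        have h2 : (p : ℤ) ∣ ((b0 + (p - b p) : ℕ) : ℤ) := by exact_mod_cast hb0 p hpS
        have h3 : b p < p := hb1 p hpS
        rw [Nat.cast_add, Nat.cast_sub h3.le] at h2
        have e : (b0 : ℤ) - b p = (b0 + ((p : ℤ) - b p)) - p := by ring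
        rw [e]
        exact dvd_sub_self_right.2 h2
      have h4 : (p : ℤ) ∣ (P : ℤ) := by exact_mod_cast Finset.dvd_prod_of_mem _ hpS
      have e : (x.1 : ℤ) * (b0 + P * m) + x.2 = ((x.1 : ℤ) * b p + x.2) +
          (x.1 : ℤ) * ((b0 : ℤ) - b p) + P * (x.1 * m) := by ring
      rw [e]
      exact dvd_add (dvd_add hp (h1.mul_left _)) (h4.mul_right _)
  rcases U.eq_empty_or_nonempty with hUe | hUn
  · -- no survivors
    have hmem : m0 ∈ 𝒜 := by
      rw [h𝒜, mem_Ico]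
      have : 0 < Ln := by
        have h3 : 0 < X ^ (1 / 2 : ℝ) := by positivity
        have : (0 : ℝ) < Ln := h3.trans_le hLn4
        exact_mod_cast this
      constructor <;> omega
    obtain ⟨r1, r2⟩ := hrange m0 hmem
    exact ⟨_, r1, r2, fun x hx => hnon m0 x hx (by rw [hUe]; simp)⟩
  have : Nonempty {x // x ∈ U} := hUn.to_subtype
  have hL3 : L ≤ L ^ 3 := by
    calc L = L ^ 1 := (pow_one L).symm
      _ ≤ L ^ 3 := pow_le_pow_right₀ (by linarith) (by norm_num)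
  have hpP : ∀ p : ℕ, p.Prime → L ^ 3 < (p : ℝ) → ¬ p ∣ P := by
    intro p hp hpL hd
    rw [hP] at hd
    obtain ⟨q, hq, hpq⟩ := (hp.prime.dvd_finsetProd_iff _).1 hd
    have h1 : p = q := (Nat.prime_dvd_prime_iff_eq hp (hSp q hq)).1 hpq
    have h2 : (p : ℝ) ≤ N := by rw [h1]; exact_mod_cast hSN q hq
    linarith
  obtain ⟨m, hm, hmk⟩ := hcov X hX1 B {x // x ∈ U}
    (by rw [Fintype.card_coe]; exact hUc3)
    (fun p m k => p ∉ B ∧ (p : ℤ) ∣ (k.1.1 : ℤ) * (b0 + P * m) + k.1.2)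
    (fun p _ => 1 / (p : ℝ))
    (fun p _ => ⟨by positivity, by
      rcases Nat.eq_zero_or_pos p with rfl | hp
      · simp
      · have : (0 : ℝ) < p := by exact_mod_cast hp
        gcongr
        norm_num⟩)
    (by
      rintro p hp hpL m k k' ⟨hpB, h1⟩ ⟨-, h2⟩
      by_contra hkk
      apply hpB
      refine hB3 k.1 k.2 k'.1 k'.2 (fun h => hkk (Subtype.ext h)) p hp ?_
      have e : (k.1.1 : ℤ) * k'.1.2 - k'.1.1 * k.1.2 =
          (k.1.1 : ℤ) * ((k'.1.1 : ℤ) * (b0 + P * m) + k'.1.2) -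
            k'.1.1 * ((k.1.1 : ℤ) * (b0 + P * m) + k.1.2) := by ring
      rw [e]
      exact dvd_sub (h2.mul_left _) (h1.mul_left _))
    (by
      intro k z' x hx hxz hz
      have h1 := hrough (L ^ 3) z' B (fun p => 1 / (p : ℝ)) (hLy.trans hL3) (fun p => ⟨by positivity, by
        rcases Nat.eq_zero_or_pos p with rfl | hp
        · simp
        · have : (0 : ℝ) < p := by exact_mod_cast hp
          gcongr
          norm_num⟩)
        (fun w hw _ => hmert L hL1 B hB1 w hw) x hx hxz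
      have e : c₂ / 3 * Real.log x / l = c₂ * Real.log x / Real.log (L ^ 3) := by
        rw [Real.log_pow, ← hl]
        push_cast
        field_simp
      rw [e]
      exact h1)
    𝒜 Ln 1 hLn4 zero_le_one (by linarith) (by
      intro T s _ hTp
      by_cases hs : ∀ p ∈ T, ¬ p ∣ (s p).1.1
      · obtain ⟨v, hv⟩ := crt_forms T (fun p hp => (hTp p hp).1) P b0
          (fun p hp => hpP p (hTp p hp).1 (hTp p hp).2.1) (fun p => (s p).1) hs
        have h1 : ∀ D : DecidablePred (fun m : ℤ => ∀ p ∈ T, p ∉ B ∧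
            (p : ℤ) ∣ ((s p).1.1 : ℤ) * (b0 + P * m) + (s p).1.2),
            (@Finset.filter ℤ _ D 𝒜) =
            𝒜.filter (fun m => ((∏ p ∈ T, p : ℕ) : ℤ) ∣ m - v) := by
          intro D
          apply Finset.filter_congr
          intro m _
          rw [← hv m]
          exact forall₂_congr fun p hp => ⟨fun h => h.2, fun h => ⟨(hTp p hp).2.2, h⟩⟩
        rw [h1, h𝒜]
        have h2 := class_count m0 v Ln (∏ p ∈ T, p) (Finset.prod_pos fun p hp => (hTp p hp).1.pos)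
        have h3 : (Ln : ℝ) * ∏ p ∈ T, 1 / (p : ℝ) = (Ln : ℝ) / ((∏ p ∈ T, p : ℕ) : ℝ) := by
          rw [Finset.prod_div_distrib]
          push_cast
          simp [div_eq_mul_inv]
        rw [h3]
        exact h2
      · exfalso
        push Not at hs
        obtain ⟨p, hp, hd⟩ := hs
        exact (hTp p hp).2.2 (hB2 _ (s p).2 p (hTp p hp).1 hd))
  obtain ⟨r1, r2⟩ := hrange m hm
  refine ⟨_, r1, r2, fun x hx => ?_⟩
  by_cases hxU : x ∈ U
  · obtain ⟨p, hp1, -, hp3, -, -, hp4⟩ := hmk ⟨x, hxU⟩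
    exact ⟨p, hp1, hp3, hp4⟩
  · exact hnon m x hx hxU

end Pool.Agent.H912R3.LF
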